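import Mathlib

/-!
# Kotzig's question on strongly regular self-complementary graphs

The circulant graph on `ZMod 17` with connection set `±1, ±3, ±4, ±5` is regular, self-complementary
and not strongly regular, but every vertex is fixed by an isomorphism onto the complement and for
every edge `uv` some isomorphism onto the complement maps `u` to `v`.
-/

set_option autoImplicit false

namespace Pool.Agent.Results.MP_a93e77_co.CirculantCounterexample

universe u

variable {V : Type u}

/-- `P` is an isomorphism from `G` onto its complement: for distinct `u, v` one has `uv ∈ E(G)` if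
and only if `P u P v ∉ E(G)`. -/
def IsoPerm (G : SimpleGraph V) (P : Equiv.Perm V) : Prop :=
  ∀ u v : V, u ≠ v → (G.Adj u v ↔ ¬ G.Adj (P u) (P v))

/-- `G` is self-complementary. -/
def SelfComplementary (G : SimpleGraph V) : Prop := ∃ P : Equiv.Perm V, IsoPerm G P

/-- `F(G)`: the vertices fixed by at least one isomorphism-permutation. -/
def FixedVertices (G : SimpleGraph V) : Set V := {v | ∃ P : Equiv.Perm V, IsoPerm G P ∧ P v = v}

/-- `N(G)`: the edges `uv` such that `u` and `v` are consecutive in a cycle of some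
isomorphism-permutation `P`, i.e. `P u = v` or `P v = u`. -/
def ConsecutiveEdges (G : SimpleGraph V) : Set (Sym2 V) :=
  {e | e ∈ G.edgeSet ∧ ∃ u v : V, e = s(u, v) ∧ ∃ P : Equiv.Perm V, IsoPerm G P ∧
    (P u = v ∨ P v = u)}

/-- all vertices have the same degree (number of neighbours) -/
def Regular (G : SimpleGraph V) : Prop := ∃ d : ℕ, ∀ v : V, (G.neighborSet v).ncard = d

/-- `G` is regular, every edge lies in the same number of triangles and any two distinct nonadjacent
vertices have the same number of common neighbours. -/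
def StronglyRegular (G : SimpleGraph V) : Prop :=
  Regular G ∧ (∃ l : ℕ, ∀ u v : V, G.Adj u v → {w | G.Adj u w ∧ G.Adj v w}.ncard = l) ∧
    ∃ m : ℕ, ∀ u v : V, u ≠ v → ¬ G.Adj u v → {w | G.Adj u w ∧ G.Adj v w}.ncard = m

/-- In a vertex-transitive self-complementary graph any vertex is mapped to any vertex by some
isomorphism-permutation. -/
theorem exists_isoPerm (G : SimpleGraph V) (hs : SelfComplementary G)
    (ht : ∀ u v : V, ∃ f : G ≃g G, f u = v) (u v : V) :
    ∃ P : Equiv.Perm V, IsoPerm G P ∧ P u = v := by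
  obtain ⟨P, hP⟩ := hs
  obtain ⟨f, hf⟩ := ht (P u) v
  refine ⟨P.trans f.toEquiv, fun a b hab => ?_, hf⟩
  rw [hP a b hab]
  show ¬ _ ↔ ¬ G.Adj (f (P a)) (f (P b))
  rw [f.map_adj_iff]

theorem fixed_eq (G : SimpleGraph V) (hs : SelfComplementary G)
    (ht : ∀ u v : V, ∃ f : G ≃g G, f u = v) :
    FixedVertices G = Set.univ ∧ ConsecutiveEdges G = G.edgeSet := by
  refine ⟨Set.eq_univ_of_forall fun v => exists_isoPerm G hs ht v v, ?_⟩
  ext e
  refine ⟨fun h => h.1, fun h => ⟨h, ?_⟩⟩
  induction e with
  | h u v =>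
    obtain ⟨P, hP, h2⟩ := exists_isoPerm G hs ht u v
    exact ⟨u, v, rfl, P, hP, Or.inl h2⟩

/-- the connection set -/
def S : Finset (ZMod 17) := {1, 3, 4, 5, 12, 13, 14, 16}

/-- the circulant graph -/
def C : SimpleGraph (ZMod 17) where
  Adj x y := y - x ∈ S
  symm := ⟨fun x y h => by revert x y; decide⟩
  loopless := ⟨fun x h => by revert x; decide⟩

instance : DecidableRel C.Adj := fun x y => inferInstanceAs (Decidable (y - x ∈ S))

lemma C_adj (x y : ZMod 17) : C.Adj x y ↔ y - x ∈ S := Iff.rfl

lemma C_transitive (u v : ZMod 17) : ∃ f : C ≃g C, f u = v := by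
  refine ⟨⟨Equiv.addRight (v - u), ?_⟩, ?_⟩
  · intro a b
    simp [C_adj]
  · show u + (v - u) = v
    abel

lemma C_self : SelfComplementary C := by
  refine ⟨⟨fun x => 9 * x, fun x => 2 * x, ?_, ?_⟩, ?_⟩
  · intro x; revert x; decide
  · intro x; revert x; decide
  · intro u v; revert u v
    show ∀ u v : ZMod 17, u ≠ v → (v - u ∈ S ↔ ¬ (9 * v - 9 * u ∈ S))
    decide

lemma C_regular : Regular C := by
  refine ⟨8, fun v => ?_⟩
  have h : C.neighborSet v = ((Finset.univ.filter fun w => w - v ∈ S : Finset (ZMod 17)) : Set _) := by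
    ext w; simp [C_adj]
  rw [h, Set.ncard_coe_finset]
  clear h
  revert v; decide

lemma common (u v : ZMod 17) : {w | C.Adj u w ∧ C.Adj v w}.ncard =
    (Finset.univ.filter fun w => w - u ∈ S ∧ w - v ∈ S : Finset (ZMod 17)).card := by
  rw [← Set.ncard_coe_finset]
  congr 1
  ext w; simp [C_adj]

lemma C_not_srg : ¬ StronglyRegular C := by
  rintro ⟨-, ⟨l, hl⟩, -⟩
  have h1 := hl 0 1 (by decide)
  have h2 := hl 0 3 (by decide)
  rw [common] at h1 h2
  have h3 : (Finset.univ.filter fun w => w - 0 ∈ S ∧ w - 1 ∈ S : Finset (ZMod 17)).card ≠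
      (Finset.univ.filter fun w => w - 0 ∈ S ∧ w - 3 ∈ S : Finset (ZMod 17)).card := by decide
  exact h3 (h1.trans h2.symm)

/-- The equivalence asked for fails: there is a regular self-complementary graph on 17 vertices with
`F(G) = V(G)` and `N(G) = E(G)` which is not strongly regular.  More generally `F(G) = V(G)` and
`N(G) = E(G)` for every vertex-transitive self-complementary graph. -/
theorem result :
    (¬ ∀ (W : Type) [Finite W] (G : SimpleGraph W), Regular G → SelfComplementary G →
      (StronglyRegular G ↔ FixedVertices G = Set.univ ∧ ConsecutiveEdges G = G.edgeSet)) ∧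
    (∃ G : SimpleGraph (Fin 17), Regular G ∧ SelfComplementary G ∧
      FixedVertices G = Set.univ ∧ ConsecutiveEdges G = G.edgeSet ∧ ¬ StronglyRegular G) ∧
    ∀ (W : Type u) (G : SimpleGraph W), SelfComplementary G →
      (∀ u v : W, ∃ f : G ≃g G, f u = v) →
      FixedVertices G = Set.univ ∧ ConsecutiveEdges G = G.edgeSet := by
  have hC := fixed_eq C C_self C_transitive
  refine ⟨fun h => C_not_srg ((h (ZMod 17) C C_regular C_self).2 hC), ?_,
    fun W G hs ht => fixed_eq G hs ht⟩
  exact ⟨(C : SimpleGraph (ZMod 17)), C_regular, C_self, hC.1, hC.2, C_not_srg⟩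

end Pool.Agent.Results.MP_a93e77_co.CirculantCounterexample
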